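import Pool.Agent.H958R2.GK.Main
import Pool.Agent.H195.GK.Emb

/-!
# Grünbaum's problem: the answer is negative for every `k` at least `4`

The case of 4-regular graphs is the theorem `Pool.Agent.H958R2.GK.main`.  Every graph of maximum
degree at most `4` embeds in a 4-regular graph of the same girth, and removing a maximal independent
set lowers the maximum degree by one.
-/

namespace Pool.Agent.Results.MP_246f82_co.AllDegrees

/-- For every `k` at least `4` there is a `g` such that every finite graph of maximum degree at most
`k` and girth at least `g` has a proper colouring with `k - 1` colours; in particular no `k`-regular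
graph of girth at least `g` has chromatic number `k`. -/
theorem result : ∀ k : ℕ, 4 ≤ k → ∃ g : ℕ, ∀ (V : Type) [Fintype V] (G : SimpleGraph V),
    (∀ v, (G.neighborSet v).ncard ≤ k) → (g : ℕ∞) ≤ G.egirth → G.Colorable (k - 1) :=
  Pool.Agent.H195.GK.emb Pool.Agent.H958R2.GK.main

end Pool.Agent.Results.MP_246f82_co.AllDegrees
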